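import Pool.Agent.Helper3_UTR.PRJ
import Pool.Agent.Helper81_BSE.Wts

/-!
# UTR, row ENB (helper3): the block inequality
-/

open MeasureTheory Matrix Finset
open scoped ComplexConjugate

namespace Pool.Agent.UTR.H3

open Pool.Agent.Helper64_FR Pool.Agent.UTR Pool.Agent.Helper64_FR.FIX Pool.Agent.BSE.H81

variable {n : ℕ}

/-! ## Projections and the torus -/

theorem inner_P_left (ρ : URep n) (B : Finset (Fin n)) (x y : ρ.Sp) :
    (inner ℂ (ρ.P B x) y : ℂ) = inner ℂ x (ρ.P B y) := by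
  conv_rhs => rw [← P_star ρ B]
  rw [ContinuousLinearMap.star_eq_adjoint, ContinuousLinearMap.adjoint_inner_right]

theorem P_P (ρ : URep n) (B : Finset (Fin n)) (x : ρ.Sp) : ρ.P B (ρ.P B x) = ρ.P B x :=
  P_inv ρ B _ (P_apply_inv ρ B x)

/-- `P_B P_{B'} = P_B` for `B' ⊆ B` -/
theorem P_sub (ρ : URep n) {B' B : Finset (Fin n)} (h : B' ⊆ B) (x : ρ.Sp) :
    ρ.P B (ρ.P B' x) = ρ.P B x := by
  refine ext_inner_left ℂ fun z => ?_
  rw [← inner_P_left, ← inner_P_left, ← inner_P_left]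
  congr 1
  exact P_inv ρ B' _ fun g hg => P_apply_inv ρ B z g (UB_mono h hg)

theorem TInv_P (ρ : URep n) (B : Finset (Fin n)) {f : ρ.Sp} (hf : TInv ρ f) :
    TInv ρ (ρ.P B f) := by
  intro i h hh
  by_cases hi : i ∈ B
  · exact P_apply_inv ρ B f h (UB_mono (Finset.singleton_subset_iff.2 hi) hh)
  · have h1 : ρ.op h * ρ.P B = ρ.P B * ρ.op h :=
      op_comm_P ρ B h fun k hk => comm_of_notMem hi hh hk
    have h2 : ρ.op h (ρ.P B f) = ρ.P B (ρ.op h f) :=
      congrArg (fun T : ρ.Sp →L[ℂ] ρ.Sp => T f) h1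
    rw [h2, hf i h hh]

theorem P_pyth (ρ : URep n) (B : Finset (Fin n)) (x : ρ.Sp) :
    ‖x‖ ^ 2 = ‖ρ.P B x‖ ^ 2 + ‖x - ρ.P B x‖ ^ 2 := by
  have h : (inner ℂ (ρ.P B x) (x - ρ.P B x) : ℂ) = 0 := by
    rw [inner_P_left, map_sub, P_P, sub_self, inner_zero_right]
  have h2 := pyth h
  rw [add_sub_cancel] at h2
  exact h2

/-! ## Variances -/

/-- replacing the values on `B'` by the mean value -/
theorem vc_mean {D B' : Finset (Fin n)} (hB : B' ⊆ D) (z z' : Fin n → ℂ)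
    (h1 : ∀ i ∈ B', z' i = (1 / (B'.card : ℂ)) * ∑ j ∈ B', z j)
    (h2 : ∀ i ∈ D, i ∉ B' → z' i = z i) : vc D z = vc D z' + vc B' z := by
  classical
  have hs : ∀ φ : ℂ → ℝ, ∑ i ∈ D, φ (z i) - ∑ i ∈ D, φ (z' i) =
      ∑ i ∈ B', φ (z i) - ∑ i ∈ B', φ (z' i) := by
    intro φ
    rw [← Finset.sum_sdiff hB, ← Finset.sum_sdiff hB (f := fun i => φ (z' i))]
    have : ∑ i ∈ D \ B', φ (z i) = ∑ i ∈ D \ B', φ (z' i) := by
      refine Finset.sum_congr rfl fun i hi => ?_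
      rw [Finset.mem_sdiff] at hi
      rw [h2 i hi.1 hi.2]
    rw [this]
    ring
  have hsum : ∑ i ∈ D, z i = ∑ i ∈ D, z' i := by
    rw [← Finset.sum_sdiff hB, ← Finset.sum_sdiff hB (f := z')]
    congr 1
    · refine Finset.sum_congr rfl fun i hi => ?_
      rw [Finset.mem_sdiff] at hi
      rw [h2 i hi.1 hi.2]
    · rw [Finset.sum_congr rfl h1, Finset.sum_const, nsmul_eq_mul]
      rcases B'.eq_empty_or_nonempty with rfl | hne
      · simp
      · have : (B'.card : ℂ) ≠ 0 := by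
          rw [Nat.cast_ne_zero]
          exact Finset.card_ne_zero.2 hne
        field_simp
  have h3 : ∑ i ∈ B', ‖z' i‖ ^ 2 = ‖∑ j ∈ B', z j‖ ^ 2 / B'.card := by
    have h4 : ∀ i ∈ B', ‖z' i‖ ^ 2 = ‖∑ j ∈ B', z j‖ ^ 2 / (B'.card : ℝ) ^ 2 := by
      intro i hi
      rw [h1 i hi, norm_mul, mul_pow, norm_div, norm_one, Complex.norm_natCast]
      ring
    rw [Finset.sum_congr rfl h4, Finset.sum_const, nsmul_eq_mul]
    rcases B'.eq_empty_or_nonempty with rfl | hne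
    · simp
    · have : (B'.card : ℝ) ≠ 0 := by
        rw [Nat.cast_ne_zero]
        exact Finset.card_ne_zero.2 hne
      field_simp
  have h5 := hs (fun w => ‖w‖ ^ 2)
  rw [h3] at h5
  unfold vc
  rw [hsum]
  linarith

/-- the contribution of the vertex `l` -/
theorem vc_l {l : Fin n} {B' : Finset (Fin n)} (hl : l ∉ B') (z z' : Fin n → ℂ) (hz : z l = 0)
    (hz' : z' l = 0) (h1 : ∀ i ∈ B', z' i = (1 / (B'.card : ℂ)) * ∑ j ∈ B', z j) :
    vc (insert l B') z = vc B' z + vc (insert l B') z' := by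
  rw [vc_insert hl hz, vc_insert hl hz', Finset.sum_congr rfl h1, Finset.sum_const, nsmul_eq_mul]
  have h4 : ∀ i ∈ B', ‖z' i‖ ^ 2 = ‖∑ j ∈ B', z j‖ ^ 2 / (B'.card : ℝ) ^ 2 := by
    intro i hi
    rw [h1 i hi, norm_mul, mul_pow, norm_div, norm_one, Complex.norm_natCast]
    ring
  rw [Finset.sum_congr rfl h4, Finset.sum_const, nsmul_eq_mul]
  unfold vc
  rcases B'.eq_empty_or_nonempty with rfl | hne
  · simp
  · have hc : (B'.card : ℝ) ≠ 0 := by
      rw [Nat.cast_ne_zero]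
      exact Finset.card_ne_zero.2 hne
    have hc' : (B'.card : ℂ) ≠ 0 := by
      rw [Nat.cast_ne_zero]
      exact Finset.card_ne_zero.2 hne
    have h5 : (B'.card : ℂ) * (1 / (B'.card : ℂ) * ∑ j ∈ B', z j) = ∑ j ∈ B', z j := by
      field_simp
    have hc1 : (B'.card : ℝ) + 1 ≠ 0 := by positivity
    rw [h5]
    field_simp
    ring

section frame

variable {ρ : URep n} {S : Finset (Fin n)} {l : Fin n}

/-- `P_{B'}` maps the span of the frame into itself -/
theorem P_span (F : Frame ρ S l) {B' : Finset (Fin n)} (hB : B' ⊆ S) {p : ρ.Sp}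
    (hp : ∃ c : Fin F.m → Fin n → ℂ, p = ∑ t, ∑ i ∈ S, c t i • F.a t i) :
    ∃ c : Fin F.m → Fin n → ℂ, ρ.P B' p = ∑ t, ∑ i ∈ S, c t i • F.a t i := by
  classical
  obtain ⟨c, rfl⟩ := hp
  refine ⟨fun t i => if i ∈ B' then (1 / (B'.card : ℂ)) * ∑ j ∈ B', c t j else c t i, ?_⟩
  rw [map_sum]
  refine Finset.sum_congr rfl fun t _ => ?_
  rw [map_sum, ← Finset.sum_sdiff hB, ← Finset.sum_sdiff hB (f := fun i =>
    (if i ∈ B' then (1 / (B'.card : ℂ)) * ∑ j ∈ B', c t j else c t i) • F.a t i)]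
  congr 1
  · refine Finset.sum_congr rfl fun i hi => ?_
    rw [Finset.mem_sdiff] at hi
    rw [if_neg hi.2, map_smul, F.eqv t B' hB i hi.1, if_neg hi.2]
  · have h1 : ∀ i ∈ B', ρ.P B' (c t i • F.a t i) =
        c t i • ((1 / (B'.card : ℂ)) • ∑ j ∈ B', F.a t j) := by
      intro i hi
      rw [map_smul, F.eqv t B' hB i (hB hi), if_pos hi]
    have h2 : ∀ i ∈ B', (if i ∈ B' then (1 / (B'.card : ℂ)) * ∑ j ∈ B', c t j else c t i) •
        F.a t i = ((1 / (B'.card : ℂ)) * ∑ j ∈ B', c t j) • F.a t i := by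
      intro i hi
      rw [if_pos hi]
    rw [Finset.sum_congr rfl h1, Finset.sum_congr rfl h2, ← Finset.sum_smul, ← Finset.smul_sum,
      smul_smul, mul_comm]

/-- the one-body vectors of `P_{B'} f` -/
theorem zf_P (F : Frame ρ S l) {B' : Finset (Fin n)} (hB : B' ⊆ S) (t : Fin F.m) (f : ρ.Sp) :
    (∀ i ∈ B', zf F t (ρ.P B' f) i = (1 / (B'.card : ℂ)) * ∑ j ∈ B', zf F t f j) ∧
    ∀ i, i ∉ B' → zf F t (ρ.P B' f) i = zf F t f i := by
  constructor
  · intro i hi
    unfold zf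
    rw [if_pos (hB hi), ← inner_P_left, F.eqv t B' hB i (hB hi), if_pos hi, inner_smul_left,
      sum_inner]
    have h1 : ∀ j ∈ B', (if j ∈ S then (Real.sqrt (((S.card : ℝ) + 1) * S.card) : ℂ) *
        inner ℂ (F.a t j) f else 0) = (Real.sqrt (((S.card : ℝ) + 1) * S.card) : ℂ) *
        inner ℂ (F.a t j) f := fun j hj => if_pos (hB hj)
    rw [Finset.sum_congr rfl h1, ← Finset.mul_sum]
    simp only [map_div₀, map_one, Complex.conj_natCast]
    ring
  · intro i hi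
    unfold zf
    by_cases hiS : i ∈ S
    · rw [if_pos hiS, if_pos hiS, ← inner_P_left, F.eqv t B' hB i hiS, if_neg hi]
    · rw [if_neg hiS, if_neg hiS]

/-- the case `l ∉ B` (equality) -/
theorem enb0 (hl : l ∉ S) (F : Frame ρ S l) {f p : ρ.Sp} (hp : IsPr F S f p)
    {B' : Finset (Fin n)} (hB : B' ⊆ S) :
    ‖f‖ ^ 2 = ‖ρ.P B' f‖ ^ 2 + ∑ t, vc B' (zf F t f) +
      (‖f - p‖ ^ 2 - ‖ρ.P B' (f - p)‖ ^ 2) := by
  have h1 := pr_norm hl F (le_refl S) hp
  have hpr : IsPr F S (ρ.P B' f) (ρ.P B' p) := by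
    refine ⟨P_span F hB hp.1, ?_⟩
    intro t i hi
    rw [← map_sub, ← inner_P_left, F.eqv t B' hB i hi]
    split_ifs with hiB
    · rw [inner_smul_left, sum_inner, Finset.sum_eq_zero fun j hj => hp.2 t j (hB hj), mul_zero]
    · exact hp.2 t i hi
  have h2 := pr_norm hl F (le_refl S) hpr
  rw [← map_sub] at h2
  have h3 : ∀ t, vc (insert l S) (zf F t f) =
      vc (insert l S) (zf F t (ρ.P B' f)) + vc B' (zf F t f) := by
    intro t
    obtain ⟨e1, e2⟩ := zf_P F hB t f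
    exact vc_mean (hB.trans (Finset.subset_insert l S)) _ _ e1 fun i _ hi => e2 i hi
  rw [Finset.sum_congr rfl fun t _ => h3 t, Finset.sum_add_distrib] at h1
  linarith

end frame

/-- row ENB -/
theorem enb : ENBStmt := by
  intro n ρ S l hl F f p hf hp B hB
  set B' := B.erase l with hB'
  have hB'S : B' ⊆ S := by
    intro i hi
    rw [hB', Finset.mem_erase] at hi
    rcases Finset.mem_insert.1 (hB hi.2) with h | h
    · exact absurd h hi.1
    · exact h
  have h0 := enb0 hl F hp hB'S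
  by_cases hlB : l ∈ B
  · have hBi : insert l B' = B := Finset.insert_erase hlB
    have hl' : l ∉ B' := Finset.notMem_erase l B
    have hsub : B' ⊆ B := Finset.erase_subset l B
    set h := ρ.P B' f with hh
    have hPh : ρ.P B h = ρ.P B f := P_sub ρ hsub f
    have h1 := P_pyth ρ B h
    rw [hPh] at h1
    obtain ⟨p', -, h2⟩ := exists_pr hl F hB'S (h - ρ.P B f)
    have hT : TInv ρ (ρ.P B f) := TInv_P ρ B hf
    have hzq : ∀ t, ∀ i ∈ B', zf F t (h - ρ.P B f) i = (1 / (B'.card : ℂ)) *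
        ∑ j ∈ B', zf F t f j := by
      intro t i hi
      have hiB : i ∈ B := hsub hi
      have hil : i ≠ l := by
        rintro rfl
        exact hl' hi
      have h3 : (inner ℂ (F.a t i) (ρ.P B f) : ℂ) = 0 :=
        F.orth t B hB hlB i hiB hil _ hT (P_apply_inv ρ B f)
      rw [← (zf_P F hB'S t f).1 i hi]
      unfold zf
      rw [inner_sub_right, h3, sub_zero]
    have h3 : ∀ t, vc B (zf F t f) = vc B' (zf F t f) + vc B (zf F t (h - ρ.P B f)) := by
      intro t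
      have := vc_l hl' (zf F t f) (zf F t (h - ρ.P B f)) (if_neg hl) (if_neg hl) (hzq t)
      rw [hBi] at this
      exact this
    rw [hBi] at h2
    rw [Finset.sum_congr rfl fun t _ => h3 t, Finset.sum_add_distrib]
    have h4 : 0 ≤ ‖h - ρ.P B f - p'‖ ^ 2 := sq_nonneg _
    linarith
  · have hBe : B' = B := Finset.erase_eq_of_notMem hlB
    rw [hBe] at h0 ⊢
    linarith

end Pool.Agent.UTR.H3
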