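import Pool.Agent.UTR.Stmts

/-!
# UTR, row PRJ (helper3): the projection onto the span of a frame, explicitly
-/

open MeasureTheory Matrix Finset
open scoped ComplexConjugate

namespace Pool.Agent.UTR.H3

open Pool.Agent.Helper64_FR Pool.Agent.UTR

variable {n : ℕ}

theorem vc_insert {l : Fin n} {B : Finset (Fin n)} (hl : l ∉ B) {z : Fin n → ℂ} (hz : z l = 0) :
    vc (insert l B) z = ∑ i ∈ B, ‖z i‖ ^ 2 - ‖∑ i ∈ B, z i‖ ^ 2 / ((B.card : ℝ) + 1) := by
  unfold vc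
  rw [Finset.sum_insert hl, Finset.sum_insert hl, Finset.card_insert_of_notMem hl, hz]
  push_cast
  rw [norm_zero, zero_add, zero_pow (by norm_num), zero_add]

section frame

variable {ρ : URep n} {S : Finset (Fin n)} {l : Fin n}

/-- the inner products with a combination of the vectors of the frame -/
theorem inner_comb (F : Frame ρ S l) {B : Finset (Fin n)} (hB : B ⊆ S)
    (c : Fin F.m → Fin n → ℂ) (t : Fin F.m) {j : Fin n} (hj : j ∈ B) :
    inner ℂ (F.a t j) (∑ s, ∑ i ∈ B, c s i • F.a s i) =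
      (∑ i ∈ B, c t i + c t j) / (((S.card : ℂ) + 1) * S.card) := by
  rw [inner_sum, Finset.sum_eq_single t]
  · rw [inner_sum]
    have h1 : ∀ i ∈ B, (inner ℂ (F.a t j) (c t i • F.a t i) : ℂ) =
        (c t i + if j = i then c t i else 0) / (((S.card : ℂ) + 1) * S.card) := by
      intro i hi
      rw [inner_smul_right, F.gram t t j (hB hj) i (hB hi), if_pos rfl]
      split_ifs <;> ring
    rw [Finset.sum_congr rfl h1, ← Finset.sum_div, Finset.sum_add_distrib, Finset.sum_ite_eq,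
      if_pos hj]
  · intro s _ hs
    rw [inner_sum]
    apply Finset.sum_eq_zero
    intro i hi
    rw [inner_smul_right, F.gram t s j (hB hj) i (hB hi), if_neg (Ne.symm hs), mul_zero]
  · intro h
    exact absurd (Finset.mem_univ _) h

/-- the inner product of a combination with a vector -/
theorem comb_inner (F : Frame ρ S l) (B : Finset (Fin n)) (c : Fin F.m → Fin n → ℂ) (q : ρ.Sp) :
    (inner ℂ (∑ s, ∑ i ∈ B, c s i • F.a s i) q : ℂ) =
      ∑ s, ∑ i ∈ B, conj (c s i) * inner ℂ (F.a s i) q := by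
  rw [sum_inner]
  refine Finset.sum_congr rfl fun s _ => ?_
  rw [sum_inner]
  refine Finset.sum_congr rfl fun i _ => ?_
  rw [inner_smul_left]

theorem span_orth (F : Frame ρ S l) {B : Finset (Fin n)} {p r : ρ.Sp}
    (hp : ∃ c : Fin F.m → Fin n → ℂ, p = ∑ t, ∑ i ∈ B, c t i • F.a t i)
    (hr : ∀ t, ∀ i ∈ B, (inner ℂ (F.a t i) r : ℂ) = 0) : (inner ℂ p r : ℂ) = 0 := by
  obtain ⟨c, rfl⟩ := hp
  rw [comb_inner]
  apply Finset.sum_eq_zero
  intro t _
  apply Finset.sum_eq_zero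
  intro i hi
  rw [hr t i hi, mul_zero]

/-- the projection is unique -/
theorem isPr_unique (F : Frame ρ S l) {B : Finset (Fin n)} {q p p' : ρ.Sp} (h : IsPr F B q p)
    (h' : IsPr F B q p') : p = p' := by
  obtain ⟨⟨c, hc⟩, h2⟩ := h
  obtain ⟨⟨c', hc'⟩, h2'⟩ := h'
  have h3 : p - p' = ∑ t, ∑ i ∈ B, (c t i - c' t i) • F.a t i := by
    rw [hc, hc', ← Finset.sum_sub_distrib]
    refine Finset.sum_congr rfl fun t _ => ?_
    rw [← Finset.sum_sub_distrib]
    refine Finset.sum_congr rfl fun i _ => ?_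
    rw [sub_smul]
  have h4 : ∀ t, ∀ i ∈ B, (inner ℂ (F.a t i) (p - p') : ℂ) = 0 := by
    intro t i hi
    have e : p - p' = (q - p') - (q - p) := by abel
    rw [e, inner_sub_right, h2 t i hi, h2' t i hi, sub_zero]
  have h5 := span_orth F ⟨fun t i => c t i - c' t i, h3⟩ h4
  exact sub_eq_zero.1 (inner_self_eq_zero.1 h5)

theorem pyth {x y : ρ.Sp} (h : (inner ℂ x y : ℂ) = 0) : ‖x + y‖ ^ 2 = ‖x‖ ^ 2 + ‖y‖ ^ 2 := by
  rw [norm_add_sq (𝕜 := ℂ), h]
  simp

/-- existence, with the value of the norm -/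
theorem exists_pr (hl : l ∉ S) (F : Frame ρ S l) {B : Finset (Fin n)} (hB : B ⊆ S) (q : ρ.Sp) :
    ∃ p : ρ.Sp, IsPr F B q p ∧ ‖q‖ ^ 2 = ‖q - p‖ ^ 2 + ∑ t, vc (insert l B) (zf F t q) := by
  set κ : ℝ := ((S.card : ℝ) + 1) * S.card with hκ
  have hκ0 : 0 ≤ κ := by positivity
  have hκC : (((S.card : ℂ) + 1) * S.card) = (κ : ℂ) := by
    rw [hκ]
    push_cast
    rfl
  set b : ℝ := (B.card : ℝ) with hb
  have hb1 : b + 1 ≠ 0 := by positivity
  have hb1C : (b : ℂ) + 1 ≠ 0 := by exact_mod_cast hb1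
  set al : Fin F.m → Fin n → ℂ := fun t i => inner ℂ (F.a t i) q with hal
  set A : Fin F.m → ℂ := fun t => ∑ i ∈ B, al t i with hA
  set c : Fin F.m → Fin n → ℂ := fun t i => (κ : ℂ) * (al t i - A t / ((b : ℂ) + 1)) with hc
  set p : ρ.Sp := ∑ t, ∑ i ∈ B, c t i • F.a t i with hp
  have hin : ∀ t, ∀ j ∈ B, (inner ℂ (F.a t j) (q - p) : ℂ) = 0 := by
    intro t j hj
    have hκne : (κ : ℂ) ≠ 0 := by
      have h1 : 0 < S.card := Finset.card_pos.2 ⟨j, hB hj⟩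
      have h2 : (0 : ℝ) < S.card := by exact_mod_cast h1
      have h3 : κ ≠ 0 := by positivity
      exact_mod_cast h3
    rw [inner_sub_right, hp, inner_comb F hB c t hj, hκC]
    have h1 : ∑ i ∈ B, c t i = (κ : ℂ) * (A t - b * (A t / ((b : ℂ) + 1))) := by
      rw [hc, ← Finset.mul_sum, Finset.sum_sub_distrib, Finset.sum_const, nsmul_eq_mul, hb]
      push_cast
      rfl
    rw [h1, hc]
    simp only
    change al t j - _ = 0
    field_simp
    ring
  have hpr : IsPr F B q p := ⟨⟨c, rfl⟩, hin⟩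
  have horth : (inner ℂ p (q - p) : ℂ) = 0 := span_orth F hpr.1 hpr.2
  refine ⟨p, hpr, ?_⟩
  have h1 : ‖q‖ ^ 2 = ‖p‖ ^ 2 + ‖q - p‖ ^ 2 := by
    have := pyth horth
    rw [add_sub_cancel] at this
    exact this
  have h2 : ((‖p‖ ^ 2 : ℝ) : ℂ) = ∑ t, ∑ i ∈ B, conj (c t i) * al t i := by
    have h3 : (inner ℂ p p : ℂ) = inner ℂ p q := by
      have h4 : p = q - (q - p) := by abel
      calc (inner ℂ p p : ℂ) = inner ℂ p (q - (q - p)) := by rw [← h4]
        _ = inner ℂ p q := by rw [inner_sub_right, horth, sub_zero]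
    have h4 : (inner ℂ p p : ℂ) = ((‖p‖ : ℝ) : ℂ) ^ 2 := inner_self_eq_norm_sq_to_K p
    rw [Complex.ofReal_pow, ← h4, h3]
    conv_lhs => rw [hp]
    rw [comb_inner]
  have h3 : ∀ t, ∑ i ∈ B, conj (c t i) * al t i =
      ((κ * (∑ i ∈ B, ‖al t i‖ ^ 2 - ‖A t‖ ^ 2 / (b + 1)) : ℝ) : ℂ) := by
    intro t
    have h4 : ∀ i ∈ B, conj (c t i) * al t i =
        (κ : ℂ) * (((‖al t i‖ ^ 2 : ℝ) : ℂ) - conj (A t) / ((b : ℂ) + 1) * al t i) := by
      intro i _
      rw [hc]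
      simp only [map_mul, map_sub, map_div₀, map_add, map_one, Complex.conj_ofReal]
      have h5 : conj (al t i) * al t i = ((‖al t i‖ ^ 2 : ℝ) : ℂ) := by
        rw [mul_comm, Complex.mul_conj, Complex.normSq_eq_norm_sq]
      rw [← h5]
      ring
    rw [Finset.sum_congr rfl h4, ← Finset.mul_sum, Finset.sum_sub_distrib, ← Finset.mul_sum]
    have h5 : conj (A t) * A t = ((‖A t‖ ^ 2 : ℝ) : ℂ) := by
      rw [mul_comm, Complex.mul_conj, Complex.normSq_eq_norm_sq]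
    have h6 : conj (A t) / ((b : ℂ) + 1) * ∑ i ∈ B, al t i = ((‖A t‖ ^ 2 : ℝ) : ℂ) / (b + 1) := by
      rw [← h5]
      ring
    rw [h6]
    push_cast
    rfl
  have h4 : ‖p‖ ^ 2 = ∑ t, κ * (∑ i ∈ B, ‖al t i‖ ^ 2 - ‖A t‖ ^ 2 / (b + 1)) := by
    have h5 : ((‖p‖ ^ 2 : ℝ) : ℂ) =
        ((∑ t, κ * (∑ i ∈ B, ‖al t i‖ ^ 2 - ‖A t‖ ^ 2 / (b + 1)) : ℝ) : ℂ) := by
      rw [h2, Complex.ofReal_sum]
      exact Finset.sum_congr rfl fun t _ => h3 t
    exact_mod_cast h5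
  have h5 : ∀ t, vc (insert l B) (zf F t q) =
      κ * (∑ i ∈ B, ‖al t i‖ ^ 2 - ‖A t‖ ^ 2 / (b + 1)) := by
    intro t
    have hz : zf F t q l = 0 := if_neg hl
    have hz' : ∀ i ∈ B, zf F t q i = (Real.sqrt κ : ℂ) * al t i := fun i hi => if_pos (hB hi)
    rw [vc_insert (fun h => hl (hB h)) hz, Finset.sum_congr rfl hz', ← Finset.mul_sum]
    have h6 : ∀ i ∈ B, ‖zf F t q i‖ ^ 2 = κ * ‖al t i‖ ^ 2 := by
      intro i hi
      rw [hz' i hi, norm_mul, mul_pow, Complex.norm_real, Real.norm_of_nonneg (Real.sqrt_nonneg _),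
        Real.sq_sqrt hκ0]
    rw [Finset.sum_congr rfl h6, ← Finset.mul_sum, norm_mul, mul_pow, Complex.norm_real,
      Real.norm_of_nonneg (Real.sqrt_nonneg _), Real.sq_sqrt hκ0]
    ring
  rw [Finset.sum_congr rfl fun t _ => h5 t, ← h4, h1]
  ring

/-- the norm of the projection -/
theorem pr_norm (hl : l ∉ S) (F : Frame ρ S l) {B : Finset (Fin n)} (hB : B ⊆ S) {q p : ρ.Sp}
    (h : IsPr F B q p) : ‖q‖ ^ 2 = ‖q - p‖ ^ 2 + ∑ t, vc (insert l B) (zf F t q) := by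
  obtain ⟨p', h1, h2⟩ := exists_pr hl F hB q
  rw [isPr_unique F h h1]
  exact h2

end frame

/-- row PRJ -/
theorem prj : PRJStmt := fun _ _ _ _ hl F _ hB q => exists_pr hl F hB q

end Pool.Agent.UTR.H3
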